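import Pool.Agent.J4H2.DN.Stm
import Pool.Agent.J4H1.JP.F1
import Pool.Agent.W169.HF.Asm

set_option autoImplicit false

/-! # helper8: `S_X` (`Xi` is slow and symmetric, the zeros stay in the strip) -/

namespace Pool.Agent.J4H8.DN

open Complex MeasureTheory Filter Topology Set
open scoped ComplexConjugate
open Pool.Agent.J4H1.JP
open Pool.Agent.J4H2.DN
open Pool.Agent.W169.HF

theorem young34 {ε x : ℝ} (hε : 0 < ε) (hx : 0 ≤ x) :
    x ^ (3 / 4 : ℝ) ≤ ε * x + (ε⁻¹) ^ 3 := by
  by_cases h : (ε⁻¹) ^ 4 ≤ x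
  · have hx0 : 0 < x := lt_of_lt_of_le (by positivity) h
    have h1 : x ^ (3 / 4 : ℝ) = x * x ^ (-(1 / 4) : ℝ) := by
      rw [← Real.rpow_one_add' hx (by norm_num)]; norm_num
    have h2 : x ^ (-(1 / 4) : ℝ) ≤ ε := by
      calc x ^ (-(1 / 4) : ℝ) ≤ ((ε⁻¹) ^ 4) ^ (-(1 / 4) : ℝ) :=
            Real.rpow_le_rpow_of_nonpos (by positivity) h (by norm_num)
        _ = ε := by
            rw [← Real.rpow_natCast, ← Real.rpow_mul (by positivity)]
            norm_num
            rw [Real.rpow_neg_one, inv_inv]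
    rw [h1]
    have : 0 < (ε⁻¹) ^ 3 := by positivity
    nlinarith
  · push Not at h
    have h1 : x ^ (3 / 4 : ℝ) ≤ ((ε⁻¹) ^ 4) ^ (3 / 4 : ℝ) :=
      Real.rpow_le_rpow hx h.le (by norm_num)
    have h2 : ((ε⁻¹) ^ 4) ^ (3 / 4 : ℝ) = (ε⁻¹) ^ 3 := by
      rw [← Real.rpow_natCast, ← Real.rpow_mul (by positivity), ← Real.rpow_natCast]
      norm_num
    rw [h2] at h1
    have : 0 ≤ ε * x := by positivity
    linarith

theorem slow_Xi : Slow Xi := by
  refine ⟨diff_Xi, fun δ hδ => ?_⟩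
  obtain ⟨C, hC, hb⟩ := t_F.1.gro
  set ε : ℝ := δ / (C + 1) with hε
  have hεp : 0 < ε := by positivity
  refine ⟨Real.exp (C * ε + C * (ε⁻¹) ^ 3), Real.exp_pos _, fun z => ?_⟩
  rw [← F_sq z, ← Real.exp_add]
  refine (hb _).trans (Real.exp_le_exp.2 ?_)
  have h1 := young34 hεp (x := 1 + ‖z ^ 2‖) (by positivity)
  rw [norm_pow] at h1 ⊢
  have h2 := mul_le_mul_of_nonneg_left h1 hC
  have h3 : C * ε ≤ δ := by
    rw [hε, mul_div_assoc', div_le_iff₀ (by positivity)]
    nlinarith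
  have h4 : C * ε * ‖z‖ ^ 2 ≤ δ * ‖z‖ ^ 2 := mul_le_mul_of_nonneg_right h3 (by positivity)
  nlinarith

theorem Xi_conj (w : ℂ) : Xi (conj w) = conj (Xi w) := by
  rw [← F_sq, ← F_sq, ← t_F.1.sym, map_pow]

theorem slow_shift {f : ℂ → ℂ} (hf : Slow f) (c : ℂ) : Slow (fun s => f (s + c)) := by
  refine ⟨hf.1.comp (differentiable_id.add_const c), fun δ hδ => ?_⟩
  obtain ⟨K, hK, h⟩ := hf.2 (δ / 2) (by positivity)
  refine ⟨K * Real.exp (δ * ‖c‖ ^ 2), by positivity, fun z => (h _).trans ?_⟩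
  rw [mul_assoc, ← Real.exp_add]
  apply mul_le_mul_of_nonneg_left _ hK.le
  apply Real.exp_le_exp.2
  have h1 := norm_add_le z c
  have h2 : ‖z + c‖ ^ 2 ≤ 2 * ‖z‖ ^ 2 + 2 * ‖c‖ ^ 2 := by
    have := pow_le_pow_left₀ (norm_nonneg _) h1 2
    nlinarith [sq_nonneg (‖z‖ - ‖c‖)]
  nlinarith

theorem int_Ph : Integrable Helper242.KK.Ph := by
  have h := int_exp 0
  refine h.congr (Eventually.of_forall fun t => ?_)
  simp

theorem Xi_ne_zero : Xi 0 ≠ 0 := by
  rw [Xi_eq_FT]
  unfold Helper242.KK.FT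
  have e : (∫ t : ℝ, ((Helper242.KK.Ph t : ℝ) : ℂ) * cexp (I * (-I * 0) * t)) =
      ((∫ t : ℝ, Helper242.KK.Ph t : ℝ) : ℂ) := by
    rw [← integral_complex_ofReal]
    congr 1
    funext t
    simp
  rw [e]
  have hpos : 0 < ∫ t : ℝ, Helper242.KK.Ph t := by
    rw [integral_pos_iff_support_of_nonneg]
    · have : Function.support Helper242.KK.Ph = univ := by
        apply eq_univ_of_forall
        intro u
        exact (Helper242.KK.Ph_pos u).ne'
      rw [this]; simp
    · intro u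
      exact (Helper242.KK.Ph_pos u).le
    · exact int_Ph
  exact_mod_cast hpos.ne'

theorem t_X : S_X := by
  refine ⟨slow_Xi, ?_, Xi_neg, ?_⟩
  · intro w
    rw [← Xi_conj, map_neg, conj_conj, Xi_neg]
  · intro t ht
    set f : ℂ → ℂ := fun s => Xi (s + (-(1 / 2) : ℂ)) with hf
    have hfe : Fe f := by
      refine ⟨1, by simp, fun s => ?_⟩
      rw [one_mul]
      simp only [hf]
      rw [← Xi_conj]
      have : conj (1 - conj s + -(1 / 2) : ℂ) = -(s + -(1 / 2)) := by
        simp only [map_add, map_sub, map_one, conj_conj, map_neg, map_div₀, map_ofNat]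
        ring
      rw [this, Xi_neg]
    have hcl : Cl (1 / 2) f := by
      refine ⟨slow_shift slow_Xi _, hfe, fun s hs => ?_⟩
      simp only [hf] at hs
      rw [← F_sq] at hs
      have h1 := t_F.2.2 _ hs
      have h2 : |(s + (-(1 / 2) : ℂ)).re| ≤ 1 / 2 := by
        simp only [Par, Set.mem_ofPred_eq] at h1
        set z := s + (-(1 / 2) : ℂ)
        simp only [sq, mul_re, mul_im] at h1
        have h3 : (4 * z.im ^ 2 + 1) * (z.re ^ 2 - 1 / 4) ≤ 0 := by nlinarith
        have h4 : z.re ^ 2 - 1 / 4 ≤ 0 := by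
          by_contra hcon
          push Not at hcon
          have : 0 < (4 * z.im ^ 2 + 1) * (z.re ^ 2 - 1 / 4) := by positivity
          linarith
        apply abs_le_of_sq_le_sq _ (by norm_num)
        linarith
      have h3 := (abs_le.1 h2).2
      have e : (s + (-(1 / 2) : ℂ)).re = s.re - 1 / 2 := by
        simp [add_re]
        ring
      rw [e] at h3
      linarith
    have hne : ∃ z, f z ≠ 0 := ⟨1 / 2, by
      simp only [hf]
      rw [add_neg_cancel]
      exact Xi_ne_zero⟩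
    have hh : ∀ w, heat t Xi w = heat t f (w + 1 / 2) := by
      intro w
      unfold heat
      congr 1
      apply integral_congr_ae
      refine Eventually.of_forall fun v => ?_
      simp only [hf]
      congr 2
      ring
    obtain ⟨⟨z0, hz0⟩, hcl2⟩ := db_all (1 / 2) f hcl hne t ht.le
    refine ⟨⟨z0 - 1 / 2, ?_⟩, ?_⟩
    · rw [hh, sub_add_cancel]; exact hz0
    · intro w hw
      rw [hh] at hw
      have h1 := hcl2.zer _ hw
      obtain ⟨ε, hε, hεfe⟩ := hcl2.fe
      have h2 := hεfe (w + 1 / 2)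
      rw [hw] at h2
      have hε0 : ε ≠ 0 := by
        intro h; rw [h] at hε; simp at hε
      have h3 : heat t f (1 - conj (w + 1 / 2)) = 0 := by
        rcases mul_eq_zero.1 h2.symm with h4 | h4
        · exact absurd h4 hε0
        · exact (map_eq_zero _).1 h4
      have h4 := hcl2.zer _ h3
      have e1 : (w + 1 / 2 : ℂ).re = w.re + 1 / 2 := by
        simp [add_re]
      have e2 : (1 - conj (w + 1 / 2) : ℂ).re = 1 / 2 - w.re := by
        rw [sub_re, conj_re, e1, one_re]; ring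
      rw [e1] at h1
      rw [e2] at h4
      rw [abs_le]
      constructor <;> linarith

end Pool.Agent.J4H8.DN
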